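import Mathlib
import Pool.Agent.MP_f58820_co.Defs
import Pool.Agent.MP_f58820_co.Final

namespace Pool.Agent.Results.MP_f58820_co.SparkExceeds

open Pool.Agent.MP_f58820_co

theorem result : ∃ (p s : ℕ) (_ : Fact p.Prime), Odd p ∧ 1 ≤ s ∧ p ^ s % 4 = 3 ∧
    ((p + 1) / 2) ^ s < spark (paleyColumn p (GaloisField p s)) :=
  exists_spark_gt

end Pool.Agent.Results.MP_f58820_co.SparkExceeds
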